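import Pool.Agent.Work.MP_a2bf38_gt.X.RegHad

/-!
# Growth of subharmonic functions on `ℂ` (helper86)

If `U` is bounded on `ℂ` and `U + A log (1 + |s|²)` is subharmonic, then `U` on the disc of radius
`2` around `a` is at most its maximum on the circle of radius `r` plus `A (4 + 2 log (1 / r))`.
-/

open scoped Topology
open Set MeasureTheory Filter Pool.Agent.ToricKRF Pool.Agent.ToricKRF.G Pool.Agent.KRFS
  Pool.Agent.KRFF Pool.Agent.KRFG

namespace Pool.Agent.KRFY

theorem growth {U : ℂ → ℝ} {A S : ℝ} (hU : Continuous U) (hA : 0 ≤ A) (hS : ∀ s, U s ≤ S)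
    (hsub : ∀ z : ℂ, ∀ᶠ s in 𝓝[>] (0 : ℝ), U z + A * Real.log (1 + ‖z‖ ^ 2) ≤
      cavg (fun ζ => U (z + ζ) + A * Real.log (1 + ‖z + ζ‖ ^ 2)) s)
    {a : ℂ} (ha : ‖a‖ ≤ 1) {r B : ℝ} (hr : 0 < r) (hr1 : r ≤ 1)
    (hB : ∀ s, ‖s - a‖ = r → U s ≤ B) {s : ℂ} (hs1 : r ≤ ‖s - a‖) (hs : ‖s - a‖ ≤ 2) :
    U s ≤ B + A * (4 + 2 * Real.log (1 / r)) := by
  have h5 : Real.log 5 ≤ 2 := by
    have h := Real.exp_one_gt_d9
    have h1 : (5 : ℝ) ≤ Real.exp 2 := by
      have : Real.exp 2 = Real.exp 1 * Real.exp 1 := by rw [← Real.exp_add]; norm_num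
      rw [this]
      nlinarith
    calc Real.log 5 ≤ Real.log (Real.exp 2) := Real.log_le_log (by norm_num) h1
      _ = 2 := Real.log_exp 2
  have h2 : Real.log 2 ≤ 1 := by
    have := Real.log_two_lt_d9
    linarith
  have hlr : 0 ≤ Real.log (1 / r) := Real.log_nonneg (by rw [one_le_div hr]; exact hr1)
  have hcont : Continuous fun z : ℂ => U z + A * Real.log (1 + ‖z‖ ^ 2) := by
    refine hU.add (continuous_const.mul ?_)
    refine Continuous.log (by fun_prop) fun z => ?_
    positivity
  set ζ := s - a with hζ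
  -- the bound with the outer radius `R`
  have hR : ∀ R : ℝ, 2 < R → U s ≤ B + 2 * A +
      ((|S - B| / Real.log R + 2 * A) * (Real.log 2 + Real.log (1 / r))) := by
    intro R hR
    have hR0 : 0 < R := by linarith
    have hlR : 0 < Real.log R := Real.log_pos (by linarith)
    have hrR : r < R := by linarith
    have hk := KRFX.RegK.three_circles (g := fun ξ => U (a + ξ) + A * Real.log (1 + ‖a + ξ‖ ^ 2))
      (r := r) (R := R) (A := B + 2 * A) (B := S + A * (2 + 2 * Real.log R)) hr hrR
      (hcont.comp (continuous_const.add continuous_id)).continuousOn ?_ ?_ ?_ (ζ := ζ) hs1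
      (by linarith)
    · have hlog1 : Real.log (R / r) = Real.log R + Real.log (1 / r) := by
        rw [Real.log_div hR0.ne' hr.ne', Real.log_div one_ne_zero hr.ne', Real.log_one]
        ring
      have hlog2 : Real.log (‖ζ‖ / r) ≤ Real.log 2 + Real.log (1 / r) := by
        rw [← Real.log_mul (by norm_num) (by positivity)]
        refine Real.log_le_log (div_pos (hr.trans_le hs1) hr) ?_
        rw [mul_one_div]
        gcongr
      have hlog3 : 0 ≤ Real.log (‖ζ‖ / r) := Real.log_nonneg (by rw [one_le_div hr]; exact hs1)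
      have hlog4 : 0 < Real.log (R / r) := by rw [hlog1]; linarith
      have hsa : a + ζ = s := by rw [hζ]; ring
      rw [hsa] at hk
      have h0 : 0 ≤ A * Real.log (1 + ‖s‖ ^ 2) := by
        refine mul_nonneg hA (Real.log_nonneg ?_)
        nlinarith [sq_nonneg ‖s‖]
      have h1 : (S + A * (2 + 2 * Real.log R) - (B + 2 * A)) *
          (Real.log (‖ζ‖ / r) / Real.log (R / r)) ≤
          (|S - B| / Real.log R + 2 * A) * (Real.log 2 + Real.log (1 / r)) := by
        have e1 : (S + A * (2 + 2 * Real.log R) - (B + 2 * A)) *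
            (Real.log (‖ζ‖ / r) / Real.log (R / r)) =
            ((S - B + 2 * A * Real.log R) / Real.log (R / r)) * Real.log (‖ζ‖ / r) := by ring
        have e2 : (S - B + 2 * A * Real.log R) / Real.log (R / r) ≤
            |S - B| / Real.log R + 2 * A := by
          have e3 : (S - B + 2 * A * Real.log R) / Real.log (R / r) ≤
              (|S - B| + 2 * A * Real.log R) / Real.log R := by
            refine (div_le_div_of_nonneg_right ?_ hlog4.le).trans
              (div_le_div_of_nonneg_left (by positivity) hlR (by rw [hlog1]; linarith))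
            linarith [le_abs_self (S - B)]
          have e4 : (|S - B| + 2 * A * Real.log R) / Real.log R =
              |S - B| / Real.log R + 2 * A := by
            field_simp
          linarith
        rw [e1]
        calc _ ≤ (|S - B| / Real.log R + 2 * A) * Real.log (‖ζ‖ / r) :=
              mul_le_mul_of_nonneg_right e2 hlog3
          _ ≤ _ := mul_le_mul_of_nonneg_left hlog2 (by positivity)
      linarith
    · intro z _ _
      refine (hsub (a + z)).mono fun t ht => ?_
      have e : (fun ξ => U (a + z + ξ) + A * Real.log (1 + ‖a + z + ξ‖ ^ 2)) =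
          fun ξ => U (a + (z + ξ)) + A * Real.log (1 + ‖a + (z + ξ)‖ ^ 2) := by
        funext ξ
        rw [add_assoc]
      rw [← e]
      exact ht
    · intro z hz
      have h1 : U (a + z) ≤ B := hB _ (by rw [add_sub_cancel_left]; exact hz)
      have h3 : ‖a + z‖ ≤ 2 := (norm_add_le _ _).trans (by rw [hz]; linarith)
      have h4 : Real.log (1 + ‖a + z‖ ^ 2) ≤ 2 := by
        refine (Real.log_le_log (by positivity) ?_).trans h5
        nlinarith [norm_nonneg (a + z)]
      have := mul_le_mul_of_nonneg_left h4 hA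
      linarith
    · intro z hz
      have h1 : U (a + z) ≤ S := hS _
      have h3 : ‖a + z‖ ≤ 1 + R := (norm_add_le _ _).trans (by rw [hz]; linarith)
      have h4 : Real.log (1 + ‖a + z‖ ^ 2) ≤ 2 + 2 * Real.log R := by
        have e1 : 1 + ‖a + z‖ ^ 2 ≤ 5 * R ^ 2 := by
          nlinarith [norm_nonneg (a + z)]
        have e2 : Real.log (5 * R ^ 2) = Real.log 5 + 2 * Real.log R := by
          rw [Real.log_mul (by norm_num) (by positivity), Real.log_pow]
          norm_num
        have e3 := Real.log_le_log (by positivity : 0 < 1 + ‖a + z‖ ^ 2) e1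
        linarith
      have := mul_le_mul_of_nonneg_left h4 hA
      linarith
  -- the limit
  have hlim : Tendsto (fun R : ℝ => B + 2 * A +
      ((|S - B| / Real.log R + 2 * A) * (Real.log 2 + Real.log (1 / r)))) atTop
      (𝓝 (B + 2 * A + ((0 + 2 * A) * (Real.log 2 + Real.log (1 / r))))) := by
    refine tendsto_const_nhds.add (Tendsto.mul_const _ (Tendsto.add_const _ ?_))
    exact Real.tendsto_log_atTop.const_div_atTop _
  have hfin := ge_of_tendsto hlim (eventually_atTop.2 ⟨3, fun R h => hR R (by linarith)⟩)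
  have h6 : 2 * A * Real.log 2 ≤ 2 * A := by
    have := mul_le_mul_of_nonneg_left h2 (by positivity : 0 ≤ 2 * A)
    linarith
  nlinarith

end Pool.Agent.KRFY
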